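import Pool.Agent.H66.GUA.Targets

/-!
Row PH of the board `gua_modules` (project GU on `MP_c59857_nt`): pigeonhole.
-/

set_option autoImplicit false

open Finset

namespace Pool.Agent.H74.GUA

open Pool.Agent.H24.T2 (box cub mem_box box_card cub_subset)
open Pool.Agent.H31.DP
open Pool.Agent.H31.DPD
open Pool.Agent.H66.GUA

/-- The type of the tuples `(u, c, b, t, x)`. -/
abbrev Tup (d n q : ℕ) : Type :=
  (Fin d → ℤ) × (Fin d → ℤ) × (Fin d → ZMod q) × (Fin n → ℤ) × ℤ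

/-- All tuples. -/
noncomputable def UU (d n q : ℕ) [NeZero q] (U N X : ℕ) (A : Finset ℕ) : Finset (Tup d n q) :=
  box d U ×ˢ box d (3 * N) ×ˢ (Finset.univ : Finset (Fin d → ZMod q)) ×ˢ box n X ×ˢ
    A.map Nat.castEmbedding

/-- The condition that `x` is the base point of a cube. -/
def PC {d n q : ℕ} (Q : ℕ) (A : Finset ℕ) (R : Finset ((Fin d → ZMod q) × (Fin d → ZMod q)))
    (p : Tup d n q) : Prop :=
  p.2.2.2.2 ∈ cub n ((As A R Q p.1 p.2.1 p.2.2.1).map Nat.castEmbedding) p.2.2.2.1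

/-- The geometric sum of a tuple. -/
noncomputable def gs {d n q : ℕ} (M Q : ℕ) (τ : (Fin d → ZMod q) → ZMod q) (p : Tup d n q) : ℝ :=
  ‖∑ s₀ ∈ mul Q M, ee (s₀ * dl n p.2.2.2.1 (phs τ Q p.1 p.2.1) p.2.2.2.2)‖

open Classical in
theorem om3_eq (d n q : ℕ) [NeZero q] (N M Q X : ℕ) (A : Finset ℕ)
    (R : Finset ((Fin d → ZMod q) × (Fin d → ZMod q))) (τ : (Fin d → ZMod q) → ZMod q) :
    Om3 n N M Q X A R τ =
      ∑ p ∈ (UU d n q (M / Q) N X A).filter (PC Q A R), gs M Q τ p := by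
  rw [Finset.sum_filter, UU, Finset.sum_product, Om3]
  refine Finset.sum_congr rfl fun u _ => ?_
  rw [Finset.sum_product]
  refine Finset.sum_congr rfl fun c _ => ?_
  rw [Finset.sum_product]
  refine Finset.sum_congr rfl fun b _ => ?_
  rw [Finset.sum_product]
  refine Finset.sum_congr rfl fun t _ => ?_
  rw [← Finset.sum_filter]
  refine Finset.sum_congr ?_ fun x _ => rfl
  ext x
  rw [Finset.mem_filter]
  constructor
  · intro hx
    refine ⟨?_, hx⟩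
    have h1 := cub_subset n _ _ hx
    rw [Finset.mem_map] at h1 ⊢
    obtain ⟨p, hp, hpx⟩ := h1
    exact ⟨p, (Finset.mem_filter.1 hp).1, hpx⟩
  · exact fun hx => hx.2

theorem card_A_le (A : Finset ℕ) (X : ℕ) (hA : ∀ p ∈ A, ∀ p' ∈ A, |(p : ℤ) - p'| ≤ (X : ℤ)) :
    ((A.map (Nat.castEmbedding : ℕ ↪ ℤ)).card : ℝ) ≤ 2 * X + 1 := by
  rcases A.eq_empty_or_nonempty with h | ⟨a, ha⟩
  · rw [h]
    simp only [Finset.map_empty, Finset.card_empty, Nat.cast_zero]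
    positivity
  · have h1 : A.map (Nat.castEmbedding : ℕ ↪ ℤ) ⊆ Finset.Icc ((a : ℤ) - X) (a + X) := by
      intro x hx
      rw [Finset.mem_map] at hx
      obtain ⟨p, hp, rfl⟩ := hx
      have := abs_le.1 (hA p hp a ha)
      rw [Finset.mem_Icc]
      simp only [Nat.castEmbedding_apply]
      constructor <;> omega
    have h2 := Finset.card_le_card h1
    rw [Int.card_Icc] at h2
    have h3 : ((a : ℤ) + X + 1 - (a - X)).toNat = 2 * X + 1 := by omega
    rw [h3] at h2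
    exact_mod_cast h2

theorem card_UU_le (d n q : ℕ) [NeZero q] (U N X : ℕ) (A : Finset ℕ)
    (hA : ∀ p ∈ A, ∀ p' ∈ A, |(p : ℤ) - p'| ≤ (X : ℤ)) :
    ((UU d n q U N X A).card : ℝ) ≤
      (2 * (U : ℝ) + 1) ^ d * ((6 * (N : ℝ) + 1) ^ d * ((q : ℝ) ^ d *
        ((2 * (X : ℝ) + 1) ^ n * (2 * (X : ℝ) + 1)))) := by
  rw [UU]
  simp only [Finset.card_product, Nat.cast_mul]
  rw [box_card, box_card, box_card, Finset.card_univ, Fintype.card_fun, ZMod.card,
    Fintype.card_fin]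
  have h1 := card_A_le A X hA
  push_cast
  rw [show (2 * (3 * (N : ℝ)) + 1) = 6 * N + 1 by ring]
  gcongr

theorem card_zero_le (n X : ℕ) (i : Fin n) :
    (((box n X).filter (fun t => t i = 0)).card : ℝ) * (2 * (X : ℝ) + 1) ≤
      (2 * (X : ℝ) + 1) ^ n := by
  classical
  have h1 : (((box n X).filter (fun t => t i = 0)) ×ˢ Finset.Icc (-(X : ℤ)) X).card ≤
      (box n X).card := by
    apply Finset.card_le_card_of_injOn (fun p => Function.update p.1 i p.2)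
    · rintro ⟨t, s⟩ hp
      rw [Finset.mem_coe, Finset.mem_product, Finset.mem_filter] at hp
      rw [Finset.mem_coe, mem_box]
      intro j
      by_cases hj : j = i
      · subst hj
        simp only [Function.update_self]
        exact abs_le.2 (Finset.mem_Icc.1 hp.2)
      · simp only [Function.update_of_ne hj]
        exact mem_box.1 hp.1.1 j
    · rintro ⟨t, s⟩ hp ⟨t', s'⟩ hp' h
      rw [Finset.mem_coe, Finset.mem_product, Finset.mem_filter] at hp hp'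
      simp only at h
      have h0 : s = s' := by
        have := congrFun h i
        simpa using this
      have h2 : t = t' := by
        funext j
        by_cases hj : j = i
        · subst hj
          exact hp.1.2.trans hp'.1.2.symm
        · have := congrFun h j
          simpa [Function.update_of_ne hj] using this
      rw [h0, h2]
  rw [Finset.card_product, Int.card_Icc] at h1
  have h3 : ((X : ℤ) + 1 - -(X : ℤ)).toNat = 2 * X + 1 := by omega
  rw [h3] at h1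
  have h4 := box_card n X
  rw [← h4]
  exact_mod_cast h1

theorem card_zeros_le (n X : ℕ) :
    (((box n X).filter (fun t => ∃ i, t i = 0)).card : ℝ) * (2 * (X : ℝ) + 1) ≤
      n * (2 * (X : ℝ) + 1) ^ n := by
  classical
  have h1 : (box n X).filter (fun t => ∃ i, t i = 0) ⊆
      Finset.univ.biUnion (fun i : Fin n => (box n X).filter (fun t => t i = 0)) := by
    intro t ht
    rw [Finset.mem_filter] at ht
    obtain ⟨i, hi⟩ := ht.2
    rw [Finset.mem_biUnion]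
    exact ⟨i, Finset.mem_univ _, Finset.mem_filter.2 ⟨ht.1, hi⟩⟩
  have h2 : (((box n X).filter (fun t => ∃ i, t i = 0)).card : ℝ) ≤
      ∑ i : Fin n, (((box n X).filter (fun t => t i = 0)).card : ℝ) := by
    have := (Finset.card_le_card h1).trans Finset.card_biUnion_le
    exact_mod_cast this
  calc (((box n X).filter (fun t => ∃ i, t i = 0)).card : ℝ) * (2 * (X : ℝ) + 1)
      ≤ (∑ i : Fin n, (((box n X).filter (fun t => t i = 0)).card : ℝ)) * (2 * (X : ℝ) + 1) := by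
        gcongr
    _ = ∑ i : Fin n, (((box n X).filter (fun t => t i = 0)).card : ℝ) * (2 * (X : ℝ) + 1) := by
        rw [Finset.sum_mul]
    _ ≤ ∑ i : Fin n, (2 * (X : ℝ) + 1) ^ n := Finset.sum_le_sum fun i _ => card_zero_le n X i
    _ = n * (2 * (X : ℝ) + 1) ^ n := by
        rw [Finset.sum_const, Finset.card_univ, Fintype.card_fin, nsmul_eq_mul]

theorem card_UZ_le (d n q : ℕ) [NeZero q] (U N X : ℕ) (A : Finset ℕ) (f : ℝ)
    (hA : ∀ p ∈ A, ∀ p' ∈ A, |(p : ℤ) - p'| ≤ (X : ℤ)) (h4 : 4 * (n : ℝ) ≤ f * (2 * X + 1)) :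
    (((UU d n q U N X A).filter (fun p => ∃ i, p.2.2.2.1 i = 0)).card : ℝ) ≤
      f / 4 * ((2 * (U : ℝ) + 1) ^ d * ((6 * (N : ℝ) + 1) ^ d * ((q : ℝ) ^ d *
        ((2 * (X : ℝ) + 1) ^ n * (2 * (X : ℝ) + 1))))) := by
  classical
  have h0 : (UU d n q U N X A).filter (fun p => ∃ i, p.2.2.2.1 i = 0) ⊆
      box d U ×ˢ box d (3 * N) ×ˢ (Finset.univ : Finset (Fin d → ZMod q)) ×ˢ
        ((box n X).filter (fun t => ∃ i, t i = 0)) ×ˢ A.map Nat.castEmbedding := by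
    rintro ⟨u, c, b, t, x⟩ hp
    rw [Finset.mem_filter, UU] at hp
    simp only [Finset.mem_product, Finset.mem_filter] at hp ⊢
    tauto
  have h1 := Finset.card_le_card h0
  simp only [Finset.card_product] at h1
  have h2 : (((UU d n q U N X A).filter (fun p => ∃ i, p.2.2.2.1 i = 0)).card : ℝ) ≤
      (2 * (U : ℝ) + 1) ^ d * ((6 * (N : ℝ) + 1) ^ d * ((q : ℝ) ^ d *
        ((((box n X).filter (fun t => ∃ i, t i = 0)).card : ℝ) * (2 * (X : ℝ) + 1)))) := by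
    have h3 : (((UU d n q U N X A).filter (fun p => ∃ i, p.2.2.2.1 i = 0)).card : ℝ) ≤
      ((box d U).card : ℝ) * (((box d (3 * N)).card : ℝ) *
        (((Finset.univ : Finset (Fin d → ZMod q)).card : ℝ) *
        ((((box n X).filter (fun t => ∃ i, t i = 0)).card : ℝ) *
          ((A.map (Nat.castEmbedding : ℕ ↪ ℤ)).card : ℝ)))) := by
      exact_mod_cast h1
    refine h3.trans ?_
    rw [box_card, box_card, Finset.card_univ, Fintype.card_fun, ZMod.card, Fintype.card_fin]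
    have h5 := card_A_le A X hA
    push_cast
    rw [show (2 * (3 * (N : ℝ)) + 1) = 6 * N + 1 by ring]
    gcongr
  refine h2.trans ?_
  have h6 := card_zeros_le n X
  have h7 : (n : ℝ) * (2 * (X : ℝ) + 1) ^ n ≤
      f / 4 * ((2 * (X : ℝ) + 1) ^ n * (2 * (X : ℝ) + 1)) := by
    have h8 : (n : ℝ) ≤ f / 4 * (2 * (X : ℝ) + 1) := by linarith
    calc (n : ℝ) * (2 * (X : ℝ) + 1) ^ n ≤ (f / 4 * (2 * (X : ℝ) + 1)) * (2 * (X : ℝ) + 1) ^ n := by
          gcongr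
      _ = _ := by ring
  calc (2 * (U : ℝ) + 1) ^ d * ((6 * (N : ℝ) + 1) ^ d * ((q : ℝ) ^ d *
        ((((box n X).filter (fun t => ∃ i, t i = 0)).card : ℝ) * (2 * (X : ℝ) + 1))))
      ≤ (2 * (U : ℝ) + 1) ^ d * ((6 * (N : ℝ) + 1) ^ d * ((q : ℝ) ^ d *
        (f / 4 * ((2 * (X : ℝ) + 1) ^ n * (2 * (X : ℝ) + 1))))) := by
        have := h6.trans h7
        gcongr
    _ = _ := by ring

theorem red_injOn (d q U : ℕ) [NeZero q] (hU : 2 * U + 1 ≤ q) :
    Set.InjOn (red q (d := d)) (box d U : Set (Fin d → ℤ)) := by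
  intro u hu v hv h
  rw [Finset.mem_coe, mem_box] at hu hv
  funext i
  have h1 := congrFun h i
  simp only [red] at h1
  rw [ZMod.intCast_eq_intCast_iff_dvd_sub] at h1
  have h2 := abs_le.1 (hu i)
  have h3 := abs_le.1 (hv i)
  have h4 : |v i - u i| < (q : ℤ) := by
    rw [abs_lt]
    constructor <;> omega
  have h5 := Int.eq_zero_of_abs_lt_dvd h1 h4
  omega

/-- The residues with a small representative. -/
noncomputable def RV (q C : ℕ) [NeZero q] : Finset (ZMod q) :=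
  Finset.univ.filter (fun r => |r.valMinAbs| ≤ (C : ℤ))

theorem card_RV_le (q C : ℕ) [NeZero q] : ((RV q C).card : ℝ) ≤ 2 * C + 1 := by
  have h1 : (RV q C).card ≤ (Finset.Icc (-(C : ℤ)) C).card := by
    apply Finset.card_le_card_of_injOn (fun r => r.valMinAbs)
    · intro r hr
      rw [Finset.mem_coe, RV, Finset.mem_filter] at hr
      rw [Finset.mem_coe, Finset.mem_Icc]
      exact abs_le.1 hr.2
    · intro r _ r' _ h
      exact ZMod.injective_valMinAbs h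
  rw [Int.card_Icc] at h1
  have h3 : ((C : ℤ) + 1 - -(C : ℤ)).toNat = 2 * C + 1 := by omega
  rw [h3] at h1
  exact_mod_cast h1

/-- The good tuples. -/
def Gd {d n q : ℕ} (Q C : ℕ) (A : Finset ℕ)
    (R : Finset ((Fin d → ZMod q) × (Fin d → ZMod q))) (τ : (Fin d → ZMod q) → ZMod q)
    (p : Tup d n q) : Prop :=
  PC Q A R p ∧ (∀ i, p.2.2.2.1 i ≠ 0) ∧
    |((rho τ Q p.1 p.2.1 p.2.2.2.2 p.2.2.2.1 : ℤ) : ZMod q).valMinAbs| ≤ (C : ℤ)

theorem pc_vx {d n q : ℕ} (hDS : T_DS) (Q : ℕ) (A : Finset ℕ)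
    (R : Finset ((Fin d → ZMod q) × (Fin d → ZMod q))) (p : Tup d n q) (hp : PC Q A R p)
    (ω : Finset (Fin n)) : ∃ a ∈ A, vx p.2.2.2.2 p.2.2.2.1 ω = (a : ℤ) ∧
      (red q (pt Q p.1 p.2.1 (vx p.2.2.2.2 p.2.2.2.1 ω)), p.2.2.1) ∈ R := by
  have h1 := (hDS n _ p.2.2.2.1 (fun _ => 0) p.2.2.2.2).1.1 hp ω
  rw [Finset.mem_map] at h1
  obtain ⟨a, ha, hax⟩ := h1
  simp only [Nat.castEmbedding_apply] at hax
  rw [As, Finset.mem_filter] at ha
  refine ⟨a, ha.1, hax.symm, ?_⟩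
  rw [← hax]
  exact ha.2

theorem gs_bound {d n q : ℕ} [NeZero q] (hDS : T_DS) (hRH : T_RH) (hGE : T_GE) (M Q : ℕ)
    (A : Finset ℕ) (R : Finset ((Fin d → ZMod q) × (Fin d → ZMod q)))
    (τ : (Fin d → ZMod q) → ZMod q) (hQ : 0 < Q) (hA : ∀ p ∈ A, 0 < p ∧ p ∣ Q)
    (p : Tup d n q) (hp : PC Q A R p) :
    gs M Q τ p ≤ 2 * ((M / Q : ℕ) : ℝ) + 1 ∧
    2 * ((|((rho τ Q p.1 p.2.1 p.2.2.2.2 p.2.2.2.1 : ℤ) : ZMod q).valMinAbs| : ℤ) : ℝ) *
      gs M Q τ p ≤ q := by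
  have hq : 0 < q := Nat.pos_of_ne_zero (NeZero.ne q)
  refine hGE Q M q (rho τ Q p.1 p.2.1 p.2.2.2.2 p.2.2.2.1)
    (dl n p.2.2.2.1 (phs τ Q p.1 p.2.1) p.2.2.2.2) hQ hq ?_
  refine hRH d n q Q τ p.1 p.2.1 p.2.2.2.2 p.2.2.2.1 hq ?_
  intro ω
  obtain ⟨a, ha, h1, _⟩ := pc_vx hDS Q A R p hp ω
  rw [h1]
  exact ⟨by exact_mod_cast (hA a ha).1, by exact_mod_cast (hA a ha).2⟩

open Classical in
theorem good_card {d n q : ℕ} [NeZero q] (hDS : T_DS) (hRH : T_RH) (hGE : T_GE)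
    (N M Q X C : ℕ) (A : Finset ℕ) (f : ℝ) (τ : (Fin d → ZMod q) → ZMod q)
    (R : Finset ((Fin d → ZMod q) × (Fin d → ZMod q))) (hQ : 0 < Q) (hf : 0 < f)
    (hA : ∀ p ∈ A, 0 < p ∧ p ∣ Q) (hAX : ∀ p ∈ A, ∀ p' ∈ A, |(p : ℤ) - p'| ≤ (X : ℤ))
    (h4 : 4 * (n : ℝ) ≤ f * (2 * X + 1))
    (hC : (q : ℝ) ≤ f / 2 * C * (2 * ((M / Q : ℕ) : ℝ) + 1))
    (hO : f * ((2 * ((M / Q : ℕ) : ℝ) + 1) ^ (d + 1) * (6 * (N : ℝ) + 1) ^ d * (q : ℝ) ^ d *
      (2 * X + 1) ^ (n + 1)) ≤ Om3 n N M Q X A R τ) :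
    f / 2 * ((2 * ((M / Q : ℕ) : ℝ) + 1) ^ d * ((6 * (N : ℝ) + 1) ^ d * ((q : ℝ) ^ d *
        ((2 * (X : ℝ) + 1) ^ n * (2 * (X : ℝ) + 1))))) ≤
      (((UU d n q (M / Q) N X A).filter (Gd Q C A R τ)).card : ℝ) := by
  have hq : 0 < q := Nat.pos_of_ne_zero (NeZero.ne q)
  have hq' : (0 : ℝ) < q := by exact_mod_cast hq
  have hC0 : 0 < C := by
    rcases Nat.eq_zero_or_pos C with h | h
    · rw [h] at hC
      simp at hC
      linarith
    · exact h
  have hC1 : (1 : ℝ) ≤ C := by exact_mod_cast hC0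
  set K : ℝ := 2 * ((M / Q : ℕ) : ℝ) + 1 with hK
  have hK0 : 0 < K := by positivity
  set W : ℝ := K ^ d * ((6 * (N : ℝ) + 1) ^ d * ((q : ℝ) ^ d *
        ((2 * (X : ℝ) + 1) ^ n * (2 * (X : ℝ) + 1)))) with hW
  have hb : ∀ p ∈ (UU d n q (M / Q) N X A).filter (PC Q A R),
      gs M Q τ p ≤ (if (∃ i, p.2.2.2.1 i = 0) then K else 0) + f / 4 * K +
        (if Gd Q C A R τ p then K else 0) := by
    intro p hp
    rw [Finset.mem_filter] at hp
    obtain ⟨g1, g2⟩ := gs_bound hDS hRH hGE M Q A R τ hQ hA p hp.2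
    by_cases hz : ∃ i, p.2.2.2.1 i = 0
    · rw [if_pos hz]
      have : 0 ≤ (if Gd Q C A R τ p then K else 0) := by split_ifs <;> positivity
      have : 0 ≤ f / 4 * K := by positivity
      linarith
    · rw [if_neg hz]
      by_cases hg : Gd Q C A R τ p
      · rw [if_pos hg]
        have : 0 ≤ f / 4 * K := by positivity
        linarith
      · rw [if_neg hg]
        have h1 : (C : ℤ) < |((rho τ Q p.1 p.2.1 p.2.2.2.2 p.2.2.2.1 : ℤ) : ZMod q).valMinAbs| := by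
          by_contra hcon
          exact hg ⟨hp.2, fun i hi => hz ⟨i, hi⟩, not_lt.1 hcon⟩
        have h2 : (C : ℝ) ≤
            ((|((rho τ Q p.1 p.2.1 p.2.2.2.2 p.2.2.2.1 : ℤ) : ZMod q).valMinAbs| : ℤ) : ℝ) := by
          exact_mod_cast h1.le
        have h3 : 0 ≤ gs M Q τ p := norm_nonneg _
        have h5 : 2 * (C : ℝ) * gs M Q τ p ≤ q := by
          refine le_trans ?_ g2
          gcongr
        have h6 : 2 * (C : ℝ) * gs M Q τ p ≤ 2 * (C : ℝ) * (f / 4 * K) := by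
          calc 2 * (C : ℝ) * gs M Q τ p ≤ q := h5
            _ ≤ f / 2 * C * K := hC
            _ = 2 * (C : ℝ) * (f / 4 * K) := by ring
        have h7 := le_of_mul_le_mul_left h6 (by positivity)
        linarith
  have h1 := Finset.sum_le_sum hb
  rw [← om3_eq, Finset.sum_add_distrib, Finset.sum_add_distrib, Finset.sum_const,
    ← Finset.sum_filter, ← Finset.sum_filter, Finset.sum_const, Finset.sum_const,
    Finset.filter_filter, Finset.filter_filter, nsmul_eq_mul, nsmul_eq_mul, nsmul_eq_mul] at h1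
  have h2 : ((((UU d n q (M / Q) N X A).filter
      (fun a => PC Q A R a ∧ ∃ i, a.2.2.2.1 i = 0)).card : ℕ) : ℝ) ≤ f / 4 * W := by
    refine le_trans ?_ (card_UZ_le d n q (M / Q) N X A f hAX h4)
    norm_cast
    refine Finset.card_le_card ?_
    intro a ha
    rw [Finset.mem_filter] at ha ⊢
    exact ⟨ha.1, ha.2.2⟩
  have h3 : ((((UU d n q (M / Q) N X A).filter (PC Q A R)).card : ℕ) : ℝ) ≤ W := by
    refine le_trans ?_ (card_UU_le d n q (M / Q) N X A hAX)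
    norm_cast
    exact Finset.card_filter_le _ _
  have h5 : ((((UU d n q (M / Q) N X A).filter
      (fun a => PC Q A R a ∧ Gd Q C A R τ a)).card : ℕ) : ℝ) ≤
      (((UU d n q (M / Q) N X A).filter (Gd Q C A R τ)).card : ℝ) := by
    norm_cast
    refine Finset.card_le_card ?_
    intro a ha
    rw [Finset.mem_filter] at ha ⊢
    exact ⟨ha.1, ha.2.2⟩
  have h6 : f * (W * K) ≤ f / 4 * W * K + W * (f / 4 * K) +
      (((UU d n q (M / Q) N X A).filter (Gd Q C A R τ)).card : ℝ) * K := by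
    calc f * (W * K) = f * (K ^ (d + 1) * (6 * (N : ℝ) + 1) ^ d * (q : ℝ) ^ d *
          (2 * X + 1) ^ (n + 1)) := by rw [hW]; ring
      _ ≤ Om3 n N M Q X A R τ := hO
      _ ≤ _ := h1
      _ ≤ _ := by gcongr
  have h7 : f / 2 * W * K ≤
      (((UU d n q (M / Q) N X A).filter (Gd Q C A R τ)).card : ℝ) * K := by linarith
  exact le_of_mul_le_mul_right h7 hK0

theorem pf_PH (hDS : T_DS) (hRH : T_RH) (hGE : T_GE) : T_PH := by
  classical
  intro d n q _ N M Q X C A f τ R hn hQ hf hA hAX h4 hC hU hO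
  have hq : 0 < q := Nat.pos_of_ne_zero (NeZero.ne q)
  have hq' : (0 : ℝ) < q := by exact_mod_cast hq
  have hG := good_card hDS hRH hGE N M Q X C A f τ R hQ hf hA hAX h4 hC hO
  set S : Finset (Tup d n q) := (UU d n q (M / Q) N X A).filter (Gd Q C A R τ) with hS
  have hSpos : 0 < S.card := by
    have : (0 : ℝ) < (S.card : ℝ) := lt_of_lt_of_le (by positivity) hG
    exact_mod_cast this
  let φ : Tup d n q → (Fin d → ℤ) × (Fin n → ℤ) × ℤ × ZMod q := fun p =>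
    (p.2.1, p.2.2.2.1, p.2.2.2.2, ((rho τ Q p.1 p.2.1 p.2.2.2.2 p.2.2.2.1 : ℤ) : ZMod q))
  let T : Finset ((Fin d → ℤ) × (Fin n → ℤ) × ℤ × ZMod q) :=
    box d (3 * N) ×ˢ box n X ×ˢ A.map Nat.castEmbedding ×ˢ RV q C
  have hmaps : ∀ p ∈ S, φ p ∈ T := by
    rintro ⟨u, c, b, t, x⟩ hp
    rw [hS, Finset.mem_filter, UU] at hp
    simp only [Finset.mem_product] at hp
    obtain ⟨⟨_, h2, _, h3, h5⟩, h6⟩ := hp
    simp only [φ, T, Finset.mem_product]
    refine ⟨h2, h3, h5, ?_⟩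
    rw [RV, Finset.mem_filter]
    exact ⟨Finset.mem_univ _, h6.2.2⟩
  have hTne : T.Nonempty := by
    obtain ⟨p, hp⟩ := Finset.card_pos.1 hSpos
    exact ⟨φ p, hmaps p hp⟩
  set K : ℝ := 2 * ((M / Q : ℕ) : ℝ) + 1 with hK
  have hK0 : 0 < K := by positivity
  have hC1 : (0 : ℝ) < 2 * (C : ℝ) + 1 := by positivity
  have hcard : T.card • (f / 2 * K ^ d * (q : ℝ) ^ d / (2 * (C : ℝ) + 1)) ≤ (S.card : ℝ) := by
    refine le_trans ?_ hG
    rw [nsmul_eq_mul]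
    have h1 : ((T.card : ℕ) : ℝ) ≤ (6 * (N : ℝ) + 1) ^ d * ((2 * (X : ℝ) + 1) ^ n *
        ((2 * (X : ℝ) + 1) * (2 * (C : ℝ) + 1))) := by
      simp only [T, Finset.card_product, Nat.cast_mul]
      rw [box_card, box_card]
      have h5 := card_A_le A X hAX
      have h6 := card_RV_le q C
      push_cast
      rw [show (2 * (3 * (N : ℝ)) + 1) = 6 * N + 1 by ring]
      gcongr
    calc ((T.card : ℕ) : ℝ) * (f / 2 * K ^ d * (q : ℝ) ^ d / (2 * (C : ℝ) + 1))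
        ≤ ((6 * (N : ℝ) + 1) ^ d * ((2 * (X : ℝ) + 1) ^ n *
        ((2 * (X : ℝ) + 1) * (2 * (C : ℝ) + 1)))) *
          (f / 2 * K ^ d * (q : ℝ) ^ d / (2 * (C : ℝ) + 1)) := by gcongr
      _ = f / 2 * (K ^ d * ((6 * (N : ℝ) + 1) ^ d * ((q : ℝ) ^ d *
        ((2 * (X : ℝ) + 1) ^ n * (2 * (X : ℝ) + 1))))) := by
          field_simp
  obtain ⟨⟨c, t, x, r⟩, _, hy⟩ :=
    Finset.exists_le_card_fiber_of_nsmul_le_card_of_maps_to hmaps hTne hcard
  set S' : Finset (Tup d n q) := S.filter (fun p => φ p = (c, t, x, r)) with hS'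
  have hmem : ∀ p ∈ S', p.1 ∈ box d (M / Q) ∧ Gd Q C A R τ p ∧ p.2.1 = c ∧ p.2.2.2.1 = t ∧
      p.2.2.2.2 = x ∧ ((rho τ Q p.1 p.2.1 p.2.2.2.2 p.2.2.2.1 : ℤ) : ZMod q) = r := by
    rintro ⟨u, c', b, t', x'⟩ hp
    rw [hS', hS, Finset.mem_filter, Finset.mem_filter, UU] at hp
    simp only [Finset.mem_product, φ, Prod.mk.injEq] at hp
    obtain ⟨⟨⟨h1, _⟩, h6⟩, h7, h8, h9, h10⟩ := hp
    exact ⟨h1, h6, h7, h8, h9, h10⟩
  have hinj : Set.InjOn (fun p : Tup d n q => (red q p.1, p.2.2.1)) (S' : Set (Tup d n q)) := by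
    rintro ⟨u, c₁, b, t₁, x₁⟩ hp ⟨u', c₂, b', t₂, x₂⟩ hp' h
    obtain ⟨g1, _, g3, g4, g5, _⟩ := hmem _ hp
    obtain ⟨k1, _, k3, k4, k5, _⟩ := hmem _ hp'
    simp only [Prod.mk.injEq] at h
    simp only at g1 g3 g4 g5 k1 k3 k4 k5
    have hu := red_injOn d q (M / Q) hU g1 k1 h.1
    rw [hu, h.2, g3, g4, g5, k3, k4, k5]
  have hScard : (0 : ℝ) < (S'.card : ℝ) :=
    lt_of_lt_of_le (by positivity) hy
  refine ⟨x, t, fun i => ((c i : ℤ) : ZMod q), r,
    S'.image (fun p => (red q p.1, p.2.2.1)), ?_, ?_, ?_, ?_⟩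
  · obtain ⟨p, hp⟩ := Finset.card_pos.1 (by exact_mod_cast hScard : 0 < S'.card)
    obtain ⟨_, g2, _, g4, _, _⟩ := hmem _ hp
    rw [← g4]
    exact g2.2.1
  · obtain ⟨p, hp⟩ := Finset.card_pos.1 (by exact_mod_cast hScard : 0 < S'.card)
    obtain ⟨_, g2, _, g4, g5, _⟩ := hmem _ hp
    intro ω
    obtain ⟨a, ha, h1, _⟩ := pc_vx hDS Q A R p g2.1 ω
    refine ⟨a, ha, ?_⟩
    rw [← g4, ← g5]
    exact h1
  · rw [Finset.card_image_of_injOn hinj]
    rw [div_le_iff₀ hC1] at hy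
    calc f / 2 * K ^ d * (q : ℝ) ^ d ≤ (S'.card : ℝ) * (2 * (C : ℝ) + 1) := hy
      _ = _ := by ring
  · intro y hyF
    rw [Finset.mem_image] at hyF
    obtain ⟨p, hp, rfl⟩ := hyF
    obtain ⟨_, g2, g3, g4, g5, g6⟩ := hmem _ hp
    have hpt : ∀ v : ℤ, red q (pt Q p.1 p.2.1 v) =
        fun i => ((c i : ℤ) : ZMod q) + (((Q : ℤ) / v : ℤ) : ZMod q) * (red q p.1) i := by
      intro v
      funext i
      rw [g3]
      simp only [red, pt]
      push_cast
      ring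
    constructor
    · intro ω
      obtain ⟨a, ha, _, h2⟩ := pc_vx hDS Q A R p g2.1 ω
      rw [g4, g5, hpt] at h2
      exact h2
    · rw [← g6, rho]
      push_cast
      refine Finset.sum_congr rfl fun ω _ => ?_
      rw [g4, g5, hpt, ZMod.natCast_zmod_val]

end Pool.Agent.H74.GUA
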